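import Pool.Agent.H12.Rec5

set_option autoImplicit false
open MeasureTheory

namespace Pool.Agent.Results.MP_e00215_an.Coincide

/-- `T` is ergodic for `μ`: every measurable strictly invariant set has measure `0` or `1`. -/
def IsErg {X : Type} [MeasurableSpace X] (μ : Measure X) (T : X → X) : Prop :=
  ∀ B : Set X, MeasurableSet B → T ⁻¹' B = B → μ B = 0 ∨ μ B = 1

/-- `R` is a set of nice recurrence. -/
def Nice (R : Set ℕ) : Prop :=
  ∀ (X : Type) [MeasurableSpace X] (μ : Measure X) [IsProbabilityMeasure μ] (T : X → X),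
    MeasurePreserving T μ μ → ∀ A : Set X, MeasurableSet A → 0 < μ A → ∀ ε : ℝ, 0 < ε →
      ∃ n ∈ R, μ.real (A ∩ T^[n] ⁻¹' A) > μ.real A ^ 2 - ε

/-- `R` is a set of ergodic nice recurrence. -/
def ErgNice (R : Set ℕ) : Prop :=
  ∀ (X : Type) [MeasurableSpace X] (μ : Measure X) [IsProbabilityMeasure μ] (T : X → X),
    MeasurePreserving T μ μ → IsErg μ T → ∀ A : Set X, MeasurableSet A → 0 < μ A →
      ∀ ε : ℝ, 0 < ε → ∃ n ∈ R, μ.real (A ∩ T^[n] ⁻¹' A) > μ.real A ^ 2 - ε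

theorem result (R : Set ℕ) (hR : 0 ∉ R) : ErgNice R ↔ Nice R := by
  refine ⟨fun h X _ μ _ T hT A hA _ ε hε => ?_,
    fun h X _ μ _ T hT _ A hA h0 ε hε => h X μ T hT A hA h0 ε hε⟩
  by_contra hc
  push Not at hc
  obtain ⟨Y, _, ν, _, S, hS, he, B, hB, h0, δ, hδ, hm⟩ := Pool.Agent.H12.Rec.main μ hT hA hε
  obtain ⟨n, hn, hlt⟩ := h Y ν S hS he B hB h0 δ hδ
  exact absurd (hm n (fun h0 => hR (h0 ▸ hn)) (hc n hn)) (not_le.2 hlt)

end Pool.Agent.Results.MP_e00215_an.Coincide
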